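import Mathlib

set_option autoImplicit false

/-! A ring of block matrices over the field with two elements with a ring topology given by
normalised ranks (adapted from the starting file NoExtension of MP_311bfa_al; here the number
of rows of a block and the scale of its ranks are independent of each other). -/

namespace Pool.Agent.Y792.RT

open Topology

/-- The index set of the blocks. -/
abbrev Idx : Type := ℕ → ℕ

/-- The size of the block with index `f`. -/
abbrev sz (f : Idx) : ℕ := 2 ^ f 0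

/-- Block upper triangular data. -/
@[ext] structure Big (N : ℕ → ℕ) : Type where
  l : ZMod 2
  s : Idx → ZMod 2
  u : (f : Idx) → Fin (N (f 0)) → ZMod 2
  v : (f : Idx) → Fin (N (f 0)) → ZMod 2
  p : (f : Idx) → Fin (N (f 0)) → ZMod 2
  q : (f : Idx) → Fin (N (f 0)) → ZMod 2
  M : (f : Idx) → Matrix (Fin (N (f 0))) (Fin (N (f 0))) (ZMod 2)

namespace Big

variable {N : ℕ → ℕ}

instance : Zero (Big N) := ⟨⟨0, 0, 0, 0, 0, 0, 0⟩⟩
instance : One (Big N) := ⟨⟨1, 0, 0, 0, 0, 0, 0⟩⟩
instance : Add (Big N) :=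
  ⟨fun a b => ⟨a.l + b.l, a.s + b.s, a.u + b.u, a.v + b.v, a.p + b.p, a.q + b.q, a.M + b.M⟩⟩
instance : Neg (Big N) := ⟨fun a => ⟨-a.l, -a.s, -a.u, -a.v, -a.p, -a.q, -a.M⟩⟩
instance : Mul (Big N) :=
  ⟨fun a b =>
    { l := a.l * b.l
      s := fun f => a.l * b.s f + a.s f * b.l
      u := fun f i => a.l * b.u f i + a.u f i * b.l
      v := fun f i => a.l * b.v f i + a.v f i * b.l
      p := fun f i => a.l * b.p f i + a.p f i * b.l + a.u f i * b.s f
      q := fun f i => a.l * b.q f i + a.q f i * b.l + a.s f * b.v f i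
      M := fun f i j => a.l * b.M f i j + a.M f i j * b.l + a.u f i * b.q f j
        + a.p f i * b.v f j }⟩

@[simp] theorem zero_l : (0 : Big N).l = 0 := rfl
@[simp] theorem zero_s : (0 : Big N).s = 0 := rfl
@[simp] theorem zero_u : (0 : Big N).u = 0 := rfl
@[simp] theorem zero_v : (0 : Big N).v = 0 := rfl
@[simp] theorem zero_p : (0 : Big N).p = 0 := rfl
@[simp] theorem zero_q : (0 : Big N).q = 0 := rfl
@[simp] theorem zero_M : (0 : Big N).M = 0 := rfl
@[simp] theorem one_l : (1 : Big N).l = 1 := rfl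
@[simp] theorem one_s : (1 : Big N).s = 0 := rfl
@[simp] theorem one_u : (1 : Big N).u = 0 := rfl
@[simp] theorem one_v : (1 : Big N).v = 0 := rfl
@[simp] theorem one_p : (1 : Big N).p = 0 := rfl
@[simp] theorem one_q : (1 : Big N).q = 0 := rfl
@[simp] theorem one_M : (1 : Big N).M = 0 := rfl
@[simp] theorem add_l (a b : Big N) : (a + b).l = a.l + b.l := rfl
@[simp] theorem add_s (a b : Big N) : (a + b).s = a.s + b.s := rfl
@[simp] theorem add_u (a b : Big N) : (a + b).u = a.u + b.u := rfl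
@[simp] theorem add_v (a b : Big N) : (a + b).v = a.v + b.v := rfl
@[simp] theorem add_p (a b : Big N) : (a + b).p = a.p + b.p := rfl
@[simp] theorem add_q (a b : Big N) : (a + b).q = a.q + b.q := rfl
@[simp] theorem add_M (a b : Big N) : (a + b).M = a.M + b.M := rfl
@[simp] theorem neg_l (a : Big N) : (-a).l = -a.l := rfl
@[simp] theorem neg_s (a : Big N) : (-a).s = -a.s := rfl
@[simp] theorem neg_u (a : Big N) : (-a).u = -a.u := rfl
@[simp] theorem neg_v (a : Big N) : (-a).v = -a.v := rfl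
@[simp] theorem neg_p (a : Big N) : (-a).p = -a.p := rfl
@[simp] theorem neg_q (a : Big N) : (-a).q = -a.q := rfl
@[simp] theorem neg_M (a : Big N) : (-a).M = -a.M := rfl
@[simp] theorem mul_l (a b : Big N) : (a * b).l = a.l * b.l := rfl
@[simp] theorem mul_s (a b : Big N) (f : Idx) : (a * b).s f = a.l * b.s f + a.s f * b.l := rfl
@[simp] theorem mul_u (a b : Big N) (f : Idx) (i : Fin (N (f 0))) :
    (a * b).u f i = a.l * b.u f i + a.u f i * b.l := rfl
@[simp] theorem mul_v (a b : Big N) (f : Idx) (i : Fin (N (f 0))) :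
    (a * b).v f i = a.l * b.v f i + a.v f i * b.l := rfl
@[simp] theorem mul_p (a b : Big N) (f : Idx) (i : Fin (N (f 0))) :
    (a * b).p f i = a.l * b.p f i + a.p f i * b.l + a.u f i * b.s f := rfl
@[simp] theorem mul_q (a b : Big N) (f : Idx) (i : Fin (N (f 0))) :
    (a * b).q f i = a.l * b.q f i + a.q f i * b.l + a.s f * b.v f i := rfl
@[simp] theorem mul_M (a b : Big N) (f : Idx) (i j : Fin (N (f 0))) :
    (a * b).M f i j = a.l * b.M f i j + a.M f i j * b.l + a.u f i * b.q f j
        + a.p f i * b.v f j := rfl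

instance : Ring (Big N) :=
  Ring.ofMinimalAxioms
    (fun a b c => by ext <;> simp [add_assoc])
    (fun a => by ext <;> simp)
    (fun a => by ext <;> simp [CharTwo.add_self_eq_zero])
    (fun a b c => by ext <;> simp <;> ring)
    (fun a => by ext <;> simp)
    (fun a => by ext <;> simp)
    (fun a b c => by ext <;> simp <;> ring)
    (fun a b c => by ext <;> simp <;> ring)

end Big

variable {N : ℕ → ℕ}

/-- The subring of elements whose `s`, `p` and `q` parts have finite support. -/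
def Fs (N : ℕ → ℕ) : Subring (Big N) where
  carrier := {a | {f | a.s f ≠ 0}.Finite ∧ {f | a.p f ≠ 0}.Finite ∧ {f | a.q f ≠ 0}.Finite}
  zero_mem' := by simp
  one_mem' := by simp
  add_mem' := by
    rintro a b ⟨h1, h2, h3⟩ ⟨k1, k2, k3⟩
    refine ⟨(h1.union k1).subset ?_, (h2.union k2).subset ?_, (h3.union k3).subset ?_⟩ <;>
    · intro f hf
      by_contra hcon
      simp only [Set.mem_union, Set.mem_ofPred_eq, not_or, not_not] at hcon
      apply hf
      simp [hcon.1, hcon.2]
  neg_mem' := by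
    rintro a ⟨h1, h2, h3⟩
    refine ⟨h1.subset ?_, h2.subset ?_, h3.subset ?_⟩ <;>
    · intro f hf
      simpa using hf
  mul_mem' := by
    rintro a b ⟨h1, h2, h3⟩ ⟨k1, k2, k3⟩
    refine ⟨(h1.union k1).subset ?_, ((h2.union k2).union k1).subset ?_,
      ((h3.union k3).union h1).subset ?_⟩
    · intro f hf
      by_contra hcon
      simp only [Set.mem_union, Set.mem_ofPred_eq, not_or, not_not] at hcon
      apply hf
      simp [hcon.1, hcon.2]
    · intro f hf
      by_contra hcon
      simp only [Set.mem_union, Set.mem_ofPred_eq, not_or, not_not] at hcon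
      apply hf
      funext i
      simp [hcon.1.1, hcon.1.2, hcon.2]
    · intro f hf
      by_contra hcon
      simp only [Set.mem_union, Set.mem_ofPred_eq, not_or, not_not] at hcon
      apply hf
      funext i
      simp [hcon.1.1, hcon.1.2, hcon.2]

/-- The basic neighbourhoods. -/
def U (N : ℕ → ℕ) (m : ℕ) : Set (Big N) :=
  {a | a.l = 0 ∧ (∀ f, f 0 < m → a.s f = 0 ∧ a.p f = 0 ∧ a.q f = 0) ∧
    (∀ f (i : Fin (N (f 0))), f (i + 1) < m → a.u f i = 0 ∧ a.v f i = 0) ∧
    ∀ f, (a.M f).rank * 2 ^ m ≤ sz f}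

theorem rank_add_le' {n : ℕ} (A B : Matrix (Fin n) (Fin n) (ZMod 2)) :
    (A + B).rank ≤ A.rank + B.rank := by
  rw [Matrix.rank, Matrix.rank, Matrix.rank, Matrix.mulVecLin_add]
  calc Module.finrank (ZMod 2) (LinearMap.range (A.mulVecLin + B.mulVecLin))
      ≤ Module.finrank (ZMod 2)
        (LinearMap.range A.mulVecLin ⊔ LinearMap.range B.mulVecLin :
          Submodule (ZMod 2) (Fin n → ZMod 2)) := by
        apply Submodule.finrank_mono
        rintro x ⟨y, rfl⟩
        rw [LinearMap.add_apply]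
        exact Submodule.add_mem_sup (LinearMap.mem_range_self _ _) (LinearMap.mem_range_self _ _)
    _ ≤ _ := Submodule.finrank_add_le_finrank_add_finrank _ _

theorem rank_neg' {n : ℕ} (A : Matrix (Fin n) (Fin n) (ZMod 2)) : (-A).rank = A.rank := by
  have : -A = A := by
    ext i j
    simp
  rw [this]

theorem zero_mem_U (m : ℕ) : (0 : Big N) ∈ U N m := by
  refine ⟨rfl, fun f _ => ⟨rfl, rfl, rfl⟩, fun f i _ => ⟨rfl, rfl⟩, fun f => ?_⟩
  simp [Matrix.rank_zero]

theorem U_anti {m n : ℕ} (h : m ≤ n) : U N n ⊆ U N m := by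
  rintro a ⟨h1, h2, h3, h4⟩
  refine ⟨h1, fun f hf => h2 f (by omega), fun f i hf => h3 f i (by omega), fun f => ?_⟩
  refine le_trans ?_ (h4 f)
  exact Nat.mul_le_mul_left _ (Nat.pow_le_pow_right (by norm_num) h)

theorem U_add {m : ℕ} {a b : Big N} (ha : a ∈ U N (m + 1)) (hb : b ∈ U N (m + 1)) : a + b ∈ U N m := by
  obtain ⟨a1, a2, a3, a4⟩ := ha
  obtain ⟨b1, b2, b3, b4⟩ := hb
  refine ⟨by simp [a1, b1], fun f hf => ?_, fun f i hf => ?_, fun f => ?_⟩
  · have h1 := a2 f (by omega)
    have h2 := b2 f (by omega)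
    simp [h1, h2]
  · have h1 := a3 f i (by omega)
    have h2 := b3 f i (by omega)
    simp [h1, h2]
  · have h1 := a4 f
    have h2 := b4 f
    have h3 := rank_add_le' (a.M f) (b.M f)
    rw [pow_succ] at h1 h2
    change ((a.M f) + (b.M f)).rank * 2 ^ m ≤ sz f
    have h5 : ((a.M f) + (b.M f)).rank * 2 ^ m ≤ ((a.M f).rank + (b.M f).rank) * 2 ^ m :=
      Nat.mul_le_mul_right _ h3
    nlinarith

theorem U_neg {m : ℕ} {a : Big N} (ha : a ∈ U N m) : -a ∈ U N m := by
  obtain ⟨a1, a2, a3, a4⟩ := ha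
  refine ⟨by simp [a1], fun f hf => ?_, fun f i hf => ?_, fun f => ?_⟩
  · have h1 := a2 f hf
    simp [h1]
  · have h1 := a3 f i hf
    simp [h1]
  · have h1 := a4 f
    change (-(a.M f)).rank * 2 ^ m ≤ sz f
    rwa [rank_neg']

theorem rank_vv {n : ℕ} (a b : Fin n → ZMod 2) : (Matrix.vecMulVec a b).rank ≤ 1 :=
  Matrix.rank_vecMulVec_le a b

theorem mul_M_eq (a b : Big N) (f : Idx) : (a * b).M f = a.l • b.M f + b.l • a.M f +
    Matrix.vecMulVec (a.u f) (b.q f) + Matrix.vecMulVec (a.p f) (b.v f) := by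
  ext i j
  simp [Matrix.vecMulVec, mul_comm]

theorem rank_smul' {n : ℕ} (c : ZMod 2) (A : Matrix (Fin n) (Fin n) (ZMod 2)) :
    (c • A).rank ≤ A.rank := by
  rcases eq_or_ne c 0 with h | h
  · simp [h, Matrix.rank_zero]
  · have : c = 1 := by
      revert h; revert c; decide
    simp [this]

theorem U_mul {m : ℕ} {a b : Big N} (ha : a ∈ U N (m + 1)) (hb : b ∈ U N (m + 1)) : a * b ∈ U N m := by
  obtain ⟨a1, a2, a3, a4⟩ := ha
  obtain ⟨b1, b2, b3, b4⟩ := hb
  refine ⟨by simp [a1, b1], fun f hf => ?_, fun f i hf => ?_, fun f => ?_⟩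
  · have h1 := a2 f (by omega)
    have h2 := b2 f (by omega)
    refine ⟨by simp [h1, h2], ?_, ?_⟩ <;>
    · funext i
      simp [h1, h2]
  · simp [a1, b1]
  · rw [mul_M_eq]
    by_cases hf : f 0 < m + 1
    · have h1 := a2 f hf
      have h2 := b2 f hf
      simp [a1, b1, h1, h2, Matrix.rank_zero]
    · have h5 : (a.l • b.M f + b.l • a.M f +
        Matrix.vecMulVec (a.u f) (b.q f) + Matrix.vecMulVec (a.p f) (b.v f)).rank ≤ 2 := by
        rw [a1, b1, zero_smul, zero_smul, add_zero, zero_add]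
        refine (rank_add_le' _ _).trans ?_
        have := rank_vv (a.u f) (b.q f)
        have := rank_vv (a.p f) (b.v f)
        omega
      have h6 : 2 ^ (m + 1) ≤ 2 ^ f 0 := Nat.pow_le_pow_right (by norm_num) (by omega)
      calc _ ≤ 2 * 2 ^ m := Nat.mul_le_mul_right _ h5
        _ = 2 ^ (m + 1) := by ring
        _ ≤ sz f := h6

/-- A bound for the entries of the index over a finite set of blocks. -/
theorem exists_bound (N : ℕ → ℕ) (S : Set Idx) (hS : S.Finite) :
    ∃ K : ℕ, ∀ f ∈ S, ∀ i : Fin (N (f 0)), f (i + 1) < K := by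
  obtain ⟨K, hK⟩ := (hS.image (fun f : Idx => ∑ i : Fin (N (f 0)), f (i + 1))).bddAbove
  refine ⟨K + 1, fun f hf i => ?_⟩
  have h1 : ∑ i : Fin (N (f 0)), f (i + 1) ≤ K := hK ⟨f, hf, rfl⟩
  have h2 : f (i + 1) ≤ ∑ i : Fin (N (f 0)), f (i + 1) :=
    Finset.single_le_sum (f := fun i : Fin (N (f 0)) => f (i + 1)) (fun _ _ => Nat.zero_le _)
      (Finset.mem_univ i)
  omega

theorem U_mul_left (x : Big N) (hx : x ∈ Fs N) (m : ℕ) : ∃ n, ∀ b ∈ U N n, x * b ∈ U N m := by
  obtain ⟨hs, hp, hq⟩ := hx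
  obtain ⟨K, hN⟩ := exists_bound N _ (hs.union hp)
  refine ⟨m + 1 + K, fun b hb => ?_⟩
  obtain ⟨b1, b2, b3, b4⟩ := hb
  have hsv : ∀ f i, x.s f * b.v f i = 0 := by
    intro f i
    by_cases h : x.s f = 0
    · simp [h]
    · have := hN f (Or.inl h) i
      simp [(b3 f i (by omega)).2]
  have hpv : ∀ f, Matrix.vecMulVec (x.p f) (b.v f) = 0 := by
    intro f
    by_cases h : x.p f = 0
    · simp [h]
    · have : b.v f = 0 := by
        funext i
        have := hN f (Or.inr h) i
        simp [(b3 f i (by omega)).2]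
      simp [this]
  refine ⟨by simp [b1], fun f hf => ?_, fun f i hf => ?_, fun f => ?_⟩
  · have h2 := b2 f (by omega)
    refine ⟨by simp [b1, h2], ?_, ?_⟩
    · funext i
      simp [b1, h2]
    · funext i
      simp [b1, h2, hsv]
  · have h2 := b3 f i (by omega)
    simp [b1, h2]
  · rw [mul_M_eq, hpv, b1, zero_smul, add_zero, add_zero]
    by_cases hf : f 0 < m + 1 + K
    · have h2 := b2 f hf
      simp only [h2, Matrix.vecMulVec_zero, add_zero]
      have h3 := b4 f
      refine le_trans ?_ h3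
      exact Nat.mul_le_mul (rank_smul' _ _) (Nat.pow_le_pow_right (by norm_num) (by omega))
    · have h3 := b4 f
      have h4 : (x.l • b.M f + Matrix.vecMulVec (x.u f) (b.q f)).rank ≤ (b.M f).rank + 1 :=
        (rank_add_le' _ _).trans (add_le_add (rank_smul' _ _) (rank_vv _ _))
      have h6 : 2 ^ (m + 1) ≤ 2 ^ f 0 := Nat.pow_le_pow_right (by norm_num) (by omega)
      have h7 : (b.M f).rank * 2 ^ (m + 1) ≤ 2 ^ f 0 :=
        le_trans (Nat.mul_le_mul_left _ (Nat.pow_le_pow_right (by norm_num) (by omega))) h3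
      calc _ ≤ ((b.M f).rank + 1) * 2 ^ m := Nat.mul_le_mul_right _ h4
        _ ≤ 2 ^ f 0 := by
          rw [pow_succ] at h6 h7
          nlinarith

theorem U_mul_right (x : Big N) (hx : x ∈ Fs N) (m : ℕ) : ∃ n, ∀ b ∈ U N n, b * x ∈ U N m := by
  obtain ⟨hs, hp, hq⟩ := hx
  obtain ⟨K, hN⟩ := exists_bound N _ (hs.union hq)
  refine ⟨m + 1 + K, fun b hb => ?_⟩
  obtain ⟨b1, b2, b3, b4⟩ := hb
  have hsv : ∀ f i, b.u f i * x.s f = 0 := by
    intro f i
    by_cases h : x.s f = 0
    · simp [h]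
    · have := hN f (Or.inl h) i
      simp [(b3 f i (by omega)).1]
  have hpv : ∀ f, Matrix.vecMulVec (b.u f) (x.q f) = 0 := by
    intro f
    by_cases h : x.q f = 0
    · simp [h]
    · have : b.u f = 0 := by
        funext i
        have := hN f (Or.inr h) i
        simp [(b3 f i (by omega)).1]
      simp [this]
  refine ⟨by simp [b1], fun f hf => ?_, fun f i hf => ?_, fun f => ?_⟩
  · have h2 := b2 f (by omega)
    refine ⟨by simp [b1, h2], ?_, ?_⟩
    · funext i
      simp [b1, h2, hsv]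
    · funext i
      simp [b1, h2]
  · have h2 := b3 f i (by omega)
    simp [b1, h2]
  · rw [mul_M_eq, hpv, b1, zero_smul, zero_add, add_zero]
    by_cases hf : f 0 < m + 1 + K
    · have h2 := b2 f hf
      simp only [h2, Matrix.zero_vecMulVec, add_zero]
      have h3 := b4 f
      refine le_trans ?_ h3
      exact Nat.mul_le_mul (rank_smul' _ _) (Nat.pow_le_pow_right (by norm_num) (by omega))
    · have h3 := b4 f
      have h4 : (x.l • b.M f + Matrix.vecMulVec (b.p f) (x.v f)).rank ≤ (b.M f).rank + 1 :=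
        (rank_add_le' _ _).trans (add_le_add (rank_smul' _ _) (rank_vv _ _))
      have h6 : 2 ^ (m + 1) ≤ 2 ^ f 0 := Nat.pow_le_pow_right (by norm_num) (by omega)
      have h7 : (b.M f).rank * 2 ^ (m + 1) ≤ 2 ^ f 0 :=
        le_trans (Nat.mul_le_mul_left _ (Nat.pow_le_pow_right (by norm_num) (by omega))) h3
      calc _ ≤ ((b.M f).rank + 1) * 2 ^ m := Nat.mul_le_mul_right _ h4
        _ ≤ 2 ^ f 0 := by
          rw [pow_succ] at h6 h7
          nlinarith


end Pool.Agent.Y792.RT
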