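import Pool.Agent.Y792.RT.Ring

set_option autoImplicit false

/-! If two elements of a monoid are not separated by finite quotients, then the tables of all
functions which separate them have uniformly large rank. -/

namespace Pool.Agent.Y792.RT

open Topology

universe u

/-- Two elements which are not separated by finite quotients. -/
def NotSep {G : Type u} [Monoid G] (g h : G) : Prop :=
  ∀ (F : Type) [Monoid F] [Finite F] (π : G →* F), π g = π h

theorem rows_infinite {G : Type u} [Monoid G] {g h : G} (hns : NotSep g h) (φ : G → ZMod 2)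
    (hφ : φ g ≠ φ h) : (Set.range (fun a : G => fun b : G => φ (a * b))).Infinite := by
  intro hfin
  set Φ : Set (G → ZMod 2) := Set.range (fun a : G => fun b : G => φ (a * b)) with hΦ
  have : Finite Φ := hfin
  obtain ⟨n, ⟨eqv⟩⟩ := Finite.exists_equiv_fin Φ
  have hact : ∀ (x : G) (v : Φ), (fun b => v.1 (x * b)) ∈ Φ := by
    rintro x ⟨_, a, rfl⟩
    exact ⟨a * x, by funext b; simp [mul_assoc]⟩
  let act : G → Φ → Φ := fun x v => ⟨fun b => v.1 (x * b), hact x v⟩
  have hact1 : ∀ v, act 1 v = v := by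
    intro v
    apply Subtype.ext
    funext b
    simp [act]
  have hactm : ∀ x y v, act (x * y) v = act y (act x v) := by
    intro x y v
    apply Subtype.ext
    funext b
    simp [act, mul_assoc]
  let E : G → Function.End (Fin n) := fun x => (fun i => eqv (act x (eqv.symm i)) : Fin n → Fin n)
  have hE1 : E 1 = 1 := by
    funext i
    change eqv (act 1 (eqv.symm i)) = i
    rw [hact1, Equiv.apply_symm_apply]
  have hEm : ∀ x y, E (x * y) = E y * E x := by
    intro x y
    funext i
    change eqv (act (x * y) (eqv.symm i)) = eqv (act y (eqv.symm (eqv (act x (eqv.symm i)))))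
    rw [hactm, Equiv.symm_apply_apply]
  let ρ : G →* (Function.End (Fin n))ᵐᵒᵖ :=
    { toFun := fun x => MulOpposite.op (E x)
      map_one' := by rw [hE1, MulOpposite.op_one]
      map_mul' := fun x y => by rw [hEm, MulOpposite.op_mul] }
  have : Finite (Function.End (Fin n))ᵐᵒᵖ := by
    have h1 : Finite (Function.End (Fin n)) := inferInstanceAs (Finite (Fin n → Fin n))
    exact Finite.of_equiv _ MulOpposite.opEquiv
  have h1 := hns _ ρ
  have h2 : E g = E h := MulOpposite.op_injective h1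
  let v0 : Φ := ⟨φ, ⟨1, by funext b; simp⟩⟩
  have h3 : eqv (act g (eqv.symm (eqv v0))) = eqv (act h (eqv.symm (eqv v0))) :=
    congrFun h2 (eqv v0)
  simp only [Equiv.symm_apply_apply] at h3
  have h4 := congrArg (fun w : Φ => w.1 1) (eqv.injective h3)
  apply hφ
  simpa [act, v0] using h4

/-- There are `n` rows of the table on `A` which are pairwise different. -/
def Rows {G : Type u} [Monoid G] (n : ℕ) (A : Finset G) : Set (G → ZMod 2) :=
  {φ | ∃ a : Fin n → G, (∀ i, a i ∈ A) ∧ ∀ i j, i ≠ j → ∃ b ∈ A, φ (a i * b) ≠ φ (a j * b)}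

theorem exists_rows {G : Type u} [Monoid G] {g h : G} (hns : NotSep g h) (φ : G → ZMod 2)
    (hφ : φ g ≠ φ h) (n : ℕ) : ∃ A : Finset G, φ ∈ Rows n A := by
  classical
  have hinf := rows_infinite hns φ hφ
  let em := hinf.natEmbedding
  choose a ha using fun i : Fin n => (em i.val).2
  have hab : ∀ i j : Fin n, i ≠ j → ∃ b, φ (a i * b) ≠ φ (a j * b) := by
    intro i j hij
    by_contra hcon
    push Not at hcon
    apply hij
    apply Fin.ext
    apply em.injective
    apply Subtype.ext
    rw [← ha i, ← ha j]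
    funext b
    exact hcon b
  have hab' : ∀ i j : Fin n, ∃ b, i ≠ j → φ (a i * b) ≠ φ (a j * b) := by
    intro i j
    by_cases hij : i = j
    · exact ⟨1, fun h => absurd hij h⟩
    · obtain ⟨b, hb⟩ := hab i j hij
      exact ⟨b, fun _ => hb⟩
  choose b hb using hab'
  refine ⟨Finset.univ.image a ∪ Finset.univ.image (fun p : Fin n × Fin n => b p.1 p.2), a,
    fun i => ?_, fun i j hij => ⟨b i j, ?_, hb i j hij⟩⟩
  · exact Finset.mem_union_left _ (Finset.mem_image_of_mem _ (Finset.mem_univ _))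
  · exact Finset.mem_union_right _
      (Finset.mem_image.mpr ⟨(i, j), Finset.mem_univ _, rfl⟩)

theorem uniform_rows {G : Type u} [Monoid G] {g h : G} (hns : NotSep g h) (n : ℕ) :
    ∃ A : Finset G, ∀ φ : G → ZMod 2, φ g ≠ φ h → φ ∈ Rows n A := by
  classical
  let _ : TopologicalSpace (ZMod 2) := ⊥
  have : DiscreteTopology (ZMod 2) := ⟨rfl⟩
  have : CompactSpace (ZMod 2) := Finite.compactSpace
  have hpair : ∀ x y : G, Continuous (fun φ : G → ZMod 2 => (φ x, φ y)) := fun x y =>
    (continuous_apply x).prodMk (continuous_apply y)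
  have hopen : ∀ x y : G, IsOpen {φ : G → ZMod 2 | φ x ≠ φ y} := fun x y =>
    (isOpen_discrete {p : ZMod 2 × ZMod 2 | p.1 ≠ p.2}).preimage (hpair x y)
  have hclosed : IsClosed {φ : G → ZMod 2 | φ g ≠ φ h} :=
    (isClosed_discrete {p : ZMod 2 × ZMod 2 | p.1 ≠ p.2}).preimage (hpair g h)
  have hcomp : IsCompact {φ : G → ZMod 2 | φ g ≠ φ h} := hclosed.isCompact
  have hmono : ∀ A B : Finset G, A ⊆ B → Rows n A ⊆ Rows n B := by
    rintro A B hAB φ ⟨a, ha, hb⟩
    refine ⟨a, fun i => hAB (ha i), fun i j hij => ?_⟩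
    obtain ⟨b, hb1, hb2⟩ := hb i j hij
    exact ⟨b, hAB hb1, hb2⟩
  have ho : ∀ A : Finset G, IsOpen (Rows n A) := by
    intro A
    have h1 : Rows n A = ⋃ a ∈ {a : Fin n → G | ∀ i, a i ∈ A}, ⋂ i, ⋂ j, ⋂ (_ : i ≠ j),
        ⋃ b ∈ A, {φ : G → ZMod 2 | φ (a i * b) ≠ φ (a j * b)} := by
      ext φ
      simp only [Rows, Set.mem_ofPred_eq, Set.mem_iUnion, Set.mem_iInter, exists_prop]
    rw [h1]
    exact isOpen_biUnion fun a _ => isOpen_iInter_of_finite fun i => isOpen_iInter_of_finite
      fun j => isOpen_iInter_of_finite fun _ => isOpen_biUnion fun b _ => hopen _ _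
  have hcov : {φ : G → ZMod 2 | φ g ≠ φ h} ⊆ ⋃ A : Finset G, Rows n A := by
    intro φ hφ
    obtain ⟨A, hA⟩ := exists_rows hns φ hφ n
    exact Set.mem_iUnion.mpr ⟨A, hA⟩
  have hdir : Directed (· ⊆ ·) (fun A : Finset G => Rows n A) := fun A B =>
    ⟨A ∪ B, hmono _ _ Finset.subset_union_left, hmono _ _ Finset.subset_union_right⟩
  obtain ⟨A, hA⟩ := hcomp.elim_directed_cover (fun A : Finset G => Rows n A) ho hcov hdir
  exact ⟨A, fun φ hφ => hA hφ⟩

theorem rank_ge {n q k : ℕ} (M : Matrix (Fin n) (Fin n) (ZMod 2)) (a : Fin q → Fin n)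
    (ha : Function.Injective (fun i => M (a i))) (hq : 2 ^ k ≤ q) : k ≤ M.rank := by
  classical
  have : Fact (Nat.Prime 2) := ⟨Nat.prime_two⟩
  rw [Matrix.rank_eq_finrank_span_row]
  set W := Submodule.span (ZMod 2) (Set.range M.row) with hW
  have h1 : Nat.card W = 2 ^ Module.finrank (ZMod 2) W := by
    have := Module.natCard_eq_pow_finrank (K := ZMod 2) (V := W)
    rwa [Nat.card_zmod] at this
  have h2 : q ≤ Nat.card W := by
    have h3 : Function.Injective (fun i : Fin q => (⟨M (a i), Submodule.subset_span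
        ⟨a i, rfl⟩⟩ : W)) := by
      intro i j hij
      apply ha
      exact congrArg Subtype.val hij
    have h4 := Nat.card_le_card_of_injective _ h3
    simpa using h4
  rw [h1] at h2
  exact (Nat.pow_le_pow_iff_right (by norm_num)).mp (hq.trans h2)

theorem exists_dat {G : Type u} [Monoid G] {g h : G} (hns : NotSep g h) :
    ∃ (N : ℕ → ℕ) (e : ℕ → G) (D : Dat G N), D.g = g ∧ D.h = h ∧ ∀ i j, D.T i j = e i * e j := by
  classical
  choose A hA using fun r : ℕ => uniform_rows hns (2 ^ (2 ^ r))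
  have hcount : (insert (1 : G) (⋃ r, (A r : Set G))).Countable :=
    (Set.countable_iUnion fun r => (A r).countable_toSet).insert 1
  obtain ⟨e, he⟩ := hcount.exists_eq_range ⟨1, Set.mem_insert _ _⟩
  have hidx : ∀ r, ∃ n : ℕ, ∀ a ∈ A r, ∃ i < n, e i = a := by
    intro r
    have h1 : ∀ a : G, ∃ i, a ∈ A r → e i = a := by
      intro a
      by_cases ha : a ∈ A r
      · have : a ∈ Set.range e := by
          rw [← he]
          exact Set.mem_insert_of_mem _ (Set.mem_iUnion.mpr ⟨r, ha⟩)
        obtain ⟨i, hi⟩ := this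
        exact ⟨i, fun _ => hi⟩
      · exact ⟨0, fun h => absurd h ha⟩
    choose i hi using h1
    refine ⟨(A r).sup i + 1, fun a ha => ⟨i a, ?_, hi a ha⟩⟩
    exact Nat.lt_succ_of_le (Finset.le_sup (f := i) ha)
  choose N hN using hidx
  refine ⟨N, e, ⟨fun i j => e i * e j, g, h, ?_⟩, rfl, rfl, fun _ _ => rfl⟩
  intro r φ hφ
  obtain ⟨a, ha, hb⟩ := hA r φ hφ
  choose i hi hei using fun k => hN r (a k) (ha k)
  refine rank_ge (q := 2 ^ (2 ^ r)) _ (fun k => ⟨i k, hi k⟩) ?_ le_rfl
  intro k l hkl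
  by_contra hne
  obtain ⟨b, hbA, hbne⟩ := hb k l hne
  obtain ⟨j, hj, hej⟩ := hN r b hbA
  apply hbne
  have h1 := congrFun hkl (⟨j, hj⟩ : Fin (N r))
  simpa [Matrix.of_apply, hei, hej] using h1

end Pool.Agent.Y792.RT
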