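import Pool.Agent.Y792.RT.Ring

set_option autoImplicit false

/-! In every semigroup ring with a ring topology which extends the topology of `S` the marked
elements are not separated. -/

namespace Pool.Agent.Y792.RT

open Topology

universe u v

/-- Choosing smaller and smaller neighbourhoods. -/
theorem exists_seq {A : Type v} [AddCommGroup A] [TopologicalSpace A] [IsTopologicalAddGroup A]
    (W : Set A) (hW : W ∈ 𝓝 (0 : A)) :
    ∃ V : ℕ → Set A, V 0 = W ∧ (∀ i, V i ∈ 𝓝 (0 : A)) ∧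
      ∀ i, ∀ a ∈ V (i + 1), ∀ b ∈ V (i + 1), a + b ∈ V i := by
  have h : ∀ S : {S : Set A // S ∈ 𝓝 (0 : A)}, ∃ T : {S : Set A // S ∈ 𝓝 (0 : A)},
      ∀ a ∈ T.1, ∀ b ∈ T.1, a + b ∈ S.1 := by
    rintro ⟨S, hS⟩
    obtain ⟨T, hT, h⟩ := exists_nhds_zero_half hS
    exact ⟨⟨T, hT⟩, h⟩
  choose H hH using h
  refine ⟨fun i => (H^[i] ⟨W, hW⟩).1, rfl, fun i => (H^[i] ⟨W, hW⟩).2, fun i a ha b hb => ?_⟩
  have := hH (H^[i] ⟨W, hW⟩)
  simp only [Function.iterate_succ_apply'] at ha hb
  exact this a ha b hb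

theorem sum_mem {A : Type v} [AddCommGroup A] [TopologicalSpace A]
    (V : ℕ → Set A) (hV : ∀ i, V i ∈ 𝓝 (0 : A))
    (h : ∀ i, ∀ a ∈ V (i + 1), ∀ b ∈ V (i + 1), a + b ∈ V i) :
    ∀ (n k : ℕ) (x : ℕ → A), (∀ i < n, x i ∈ V (k + i + 1)) →
      (∑ i ∈ Finset.range n, x i) ∈ V k := by
  intro n
  induction n with
  | zero =>
    intro k x _
    simpa using mem_of_mem_nhds (hV k)
  | succ n ih =>
    intro k x hx
    rw [Finset.sum_range_succ']
    apply h
    · apply ih (k + 1)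
      intro i hi
      have := hx (i + 1) (by omega)
      have e : k + (i + 1) + 1 = k + 1 + i + 1 := by ring
      rwa [e] at this
    · have := hx 0 (by omega)
      simpa using this

variable {G : Type u} {N : ℕ → ℕ}

/-- The table of the elements `k`. -/
noncomputable def tab (D : Dat G N) (f : Idx) (k : G) : Big N := by
  classical
  exact El D (Finsupp.single f (Pi.single k 1))

theorem tab_mem (D : Dat G N) (f : Idx) (k : G) : tab D f k ∈ Fs N := mt_mem _

/-- The class of a table. -/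
noncomputable def tabS (D : Dat G N) (f : Idx) (k : G) : S D :=
  Ideal.Quotient.mk (I D) ⟨tab D f k, tab_mem D f k⟩

theorem tabS_other (D : Dat G N) (f : Idx) {k : G} (h1 : k ≠ D.g) (h2 : k ≠ D.h) :
    tabS D f k = 0 := by
  classical
  rw [tabS, Ideal.Quotient.eq_zero_iff_mem, mem_I]
  refine InI_of_InI0 D ⟨_, rfl, ?_⟩
  rw [lam_single]
  simp [h1.symm, h2.symm]

theorem tabS_eq (D : Dat G N) (hgh : D.g ≠ D.h) (f f' : Idx) {k k' : G} (hk : k = D.g ∨ k = D.h)
    (hk' : k' = D.g ∨ k' = D.h) : tabS D f k = tabS D f' k' := by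
  classical
  rw [tabS, tabS, Ideal.Quotient.eq, mem_I]
  have e : ((⟨tab D f k, tab_mem D f k⟩ - ⟨tab D f' k', tab_mem D f' k'⟩ : Fs N) : Big N) =
      El D (Finsupp.single f (Pi.single k 1) + Finsupp.single f' (Pi.single k' 1)) := by
    push_cast
    rw [sub_eq_add_neg, big_neg, El_add]
    rfl
  rw [e]
  refine InI_of_InI0 D ⟨_, rfl, ?_⟩
  rw [lam_add, lam_single, lam_single]
  rcases hk with rfl | rfl <;> rcases hk' with rfl | rfl <;>
    simp [hgh, hgh.symm, CharTwo.add_self_eq_zero]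

theorem tabS_ne (D : Dat G N) (hgh : D.g ≠ D.h) (f : Idx) : tabS D f D.g ≠ 0 := by
  classical
  intro h
  rw [tabS, Ideal.Quotient.eq_zero_iff_mem, mem_I] at h
  have h1 := lam_of_InI D h
  rw [lam_single] at h1
  simp [hgh.symm] at h1

/-- The table of `k` is the sum of the matrix units at the places where the product is `k`. -/
theorem sum_unit (D : Dat G N) (f : Idx) (k : G) [DecidableEq G] :
    ∑ p ∈ (Finset.range (N (f 0)) ×ˢ Finset.range (N (f 0))).filter
      (fun p : ℕ × ℕ => D.T p.1 p.2 = k), mt (N := N) (unit' f p.1 p.2) = tab D f k := by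
  classical
  rw [← map_sum]
  unfold tab El
  congr 1
  funext f'
  ext i' j'
  rw [Finset.sum_apply, Matrix.sum_apply]
  simp only [unit', Matrix.of_apply]
  by_cases hf : f' = f
  · subst hf
    simp only [true_and, Finsupp.single_eq_same, Pi.single_apply]
    have h1 : ∀ p : ℕ × ℕ, (if (i'.val = p.1 ∧ j'.val = p.2) then (1 : ZMod 2) else 0) =
        if p = (i'.val, j'.val) then 1 else 0 := by
      rintro ⟨a, b⟩
      simp only [Prod.mk.injEq]
      congr 1
      exact propext ⟨fun h => ⟨h.1.symm, h.2.symm⟩, fun h => ⟨h.1.symm, h.2.symm⟩⟩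
    simp only [h1]
    rw [Finset.sum_ite_eq']
    simp [Fin.is_lt]
  · simp [hf]

theorem key {G : Type u} [Monoid G] (D : Dat G N) (hgh : D.g ≠ D.h) (e : ℕ → G)
    (he : ∀ i j, D.T i j = e i * e j)
    {A : Type v} [AddCommGroup A] [TopologicalSpace A] [T2Space A] [IsTopologicalAddGroup A]
    (mul : A →+ A →+ A) (hmul : Continuous fun p : A × A => mul p.1 p.2)
    (s : G → S D →+ A) (hs : ∀ a b r t, mul (s a r) (s b t) = s (a * b) (r * t))
    (hcont : Continuous (s 1)) :
    s D.g (tabS D (fun _ => 0) D.g) + s D.h (tabS D (fun _ => 0) D.g) = 0 := by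
  classical
  by_contra hne
  obtain ⟨d, hdd⟩ : ∃ d, d = s D.g (tabS D (fun _ => 0) D.g) +
    s D.h (tabS D (fun _ => 0) D.g) := ⟨_, rfl⟩
  rw [← hdd] at hne
  have hW0 : {a : A | a ≠ d} ∈ 𝓝 (0 : A) := isOpen_ne.mem_nhds (Ne.symm hne)
  have hcont3 : Continuous (fun t : A × A × A => mul (mul t.1 t.2.1) t.2.2) := by
    have h1 : Continuous (fun t : A × A × A => mul t.1 t.2.1) :=
      hmul.comp (continuous_fst.prodMk (continuous_fst.comp continuous_snd))
    exact hmul.comp (h1.prodMk (continuous_snd.comp continuous_snd))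
  have h3 : (fun t : A × A × A => mul (mul t.1 t.2.1) t.2.2) ⁻¹' {a : A | a ≠ d} ∈
      𝓝 ((0, 0, 0) : A × A × A) := by
    apply hcont3.continuousAt.preimage_mem_nhds
    simpa using hW0
  rw [nhds_prod_eq, nhds_prod_eq, Filter.mem_prod_iff] at h3
  obtain ⟨W1, hW1, W23, hW23, h3⟩ := h3
  rw [Filter.mem_prod_iff] at hW23
  obtain ⟨W2, hW2, W3, hW3, h23⟩ := hW23
  have hprod : ∀ a ∈ W1, ∀ b ∈ W2, ∀ c ∈ W3, mul (mul a b) c ≠ d := by
    intro a ha b hb c hc
    have : ((a, b, c) : A × A × A) ∈ W1 ×ˢ W23 := ⟨ha, h23 ⟨hb, hc⟩⟩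
    exact h3 this
  obtain ⟨V1, hV10, hV1n, hV1⟩ := exists_seq W1 hW1
  obtain ⟨V3, hV30, hV3n, hV3⟩ := exists_seq W3 hW3
  have hsingle : ∀ m : G, Continuous (s m) := by
    intro m
    have : (s m : S D → A) = fun r : S D => mul (s 1 r) (s m 1) := by
      funext r
      rw [hs]
      simp
    rw [this]
    exact hmul.comp (hcont.prodMk continuous_const)
  -- the block
  obtain ⟨m0, hm0⟩ := nhds_zero D (V := (s 1) ⁻¹' W2) (by
    apply hcont.continuousAt.preimage_mem_nhds
    simpa using hW2)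
  have hVi : ∀ i : ℕ, ∃ m, US D m ⊆ ((s (e i)) ⁻¹' V1 (i + 1)) ∩ ((s (e i)) ⁻¹' V3 (i + 1)) := by
    intro i
    apply nhds_zero D
    apply Filter.inter_mem
    · apply (hsingle _).continuousAt.preimage_mem_nhds
      simpa using hV1n (i + 1)
    · apply (hsingle _).continuousAt.preimage_mem_nhds
      simpa using hV3n (i + 1)
  choose m hm using hVi
  let f : Idx := fun k => Nat.casesOn k m0 m
  set n := N (f 0) with hn
  let x : ℕ → S D := fun i => Ideal.Quotient.mk (I D) ⟨X N f i, X_mem f i⟩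
  let z : ℕ → S D := fun i => Ideal.Quotient.mk (I D) ⟨Z N f i, Z_mem f i⟩
  let y : S D := Ideal.Quotient.mk (I D) ⟨Y N f, Y_mem f⟩
  have hy : s 1 y ∈ W2 := hm0 ⟨_, Y_U f, rfl⟩
  have hX : (∑ i ∈ Finset.range n, s (e i) (x i)) ∈ W1 := by
    rw [← hV10]
    apply sum_mem V1 hV1n hV1
    intro i _
    have : s (e i) (x i) ∈ V1 (i + 1) := (hm i ⟨_, X_U f i, rfl⟩).1
    simpa using this
  have hZ : (∑ i ∈ Finset.range n, s (e i) (z i)) ∈ W3 := by
    rw [← hV30]
    apply sum_mem V3 hV3n hV3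
    intro i _
    have : s (e i) (z i) ∈ V3 (i + 1) := (hm i ⟨_, Z_U f i, rfl⟩).2
    simpa using this
  apply hprod _ hX _ hy _ hZ
  have hxyz : ∀ i j, x i * y * z j = Ideal.Quotient.mk (I D)
      ⟨mt (unit' f i j), mt_mem _⟩ := by
    intro i j
    simp only [x, y, z, ← map_mul]
    congr 1
    apply Subtype.ext
    push_cast
    exact XYZ f i j
  have hexp : mul (mul (∑ i ∈ Finset.range n, s (e i) (x i)) (s 1 y))
      (∑ j ∈ Finset.range n, s (e j) (z j)) =
      ∑ p ∈ Finset.range n ×ˢ Finset.range n, s (D.T p.1 p.2)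
        (Ideal.Quotient.mk (I D) ⟨mt (unit' f p.1 p.2), mt_mem _⟩) := by
    have h1 : mul (∑ i ∈ Finset.range n, s (e i) (x i)) (s 1 y) =
        ∑ i ∈ Finset.range n, s (e i) (x i * y) := by
      rw [map_sum mul, AddMonoidHom.finsetSum_apply]
      refine Finset.sum_congr rfl fun i _ => ?_
      rw [hs, mul_one]
    rw [h1, map_sum mul, AddMonoidHom.finsetSum_apply, Finset.sum_product]
    refine Finset.sum_congr rfl fun i _ => ?_
    rw [map_sum]
    refine Finset.sum_congr rfl fun j _ => ?_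
    rw [hs, hxyz, he]
  rw [hexp]
  -- group by the product
  set K : Finset G := (Finset.range n ×ˢ Finset.range n).image (fun p => D.T p.1 p.2) with hK
  have hfib := Finset.sum_fiberwise_of_maps_to (s := Finset.range n ×ˢ Finset.range n) (t := K)
    (g := fun p : ℕ × ℕ => D.T p.1 p.2)
    (fun p hp => Finset.mem_image_of_mem _ hp)
    (fun p => s (D.T p.1 p.2) (Ideal.Quotient.mk (I D) ⟨mt (unit' f p.1 p.2), mt_mem _⟩))
  rw [← hfib]
  have hterm : ∀ k ∈ K, (∑ p ∈ (Finset.range n ×ˢ Finset.range n).filter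
      (fun p => D.T p.1 p.2 = k), s (D.T p.1 p.2)
        (Ideal.Quotient.mk (I D) ⟨mt (unit' f p.1 p.2), mt_mem _⟩)) = s k (tabS D f k) := by
    intro k _
    have h1 : ∀ p ∈ (Finset.range n ×ˢ Finset.range n).filter (fun p => D.T p.1 p.2 = k),
        s (D.T p.1 p.2) (Ideal.Quotient.mk (I D) ⟨mt (unit' f p.1 p.2), mt_mem _⟩) =
        s k (Ideal.Quotient.mk (I D) ⟨mt (unit' f p.1 p.2), mt_mem _⟩) := by
      intro p hp
      rw [(Finset.mem_filter.mp hp).2]
    rw [Finset.sum_congr rfl h1, ← map_sum, ← map_sum]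
    congr 1
    unfold tabS
    congr 1
    apply Subtype.ext
    change (∑ p ∈ (Finset.range n ×ˢ Finset.range n).filter (fun p => D.T p.1 p.2 = k),
      (⟨mt (unit' f p.1 p.2), mt_mem _⟩ : Fs N) : Fs N).1 = tab D f k
    rw [← sum_unit D f k]
    push_cast
    rfl
  rw [Finset.sum_congr rfl hterm]
  have hgK : ∀ k, (k = D.g ∨ k = D.h) → k ∈ K := by
    intro k hk
    by_contra hkK
    have h1 : tab D f k = 0 := by
      rw [← sum_unit D f k]
      apply Finset.sum_eq_zero
      intro p hp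
      exfalso
      obtain ⟨hp1, hp2⟩ := Finset.mem_filter.mp hp
      exact hkK (hp2 ▸ Finset.mem_image_of_mem _ hp1)
    have h2 : tabS D f k = 0 := by
      unfold tabS
      have : (⟨tab D f k, tab_mem D f k⟩ : Fs N) = 0 := Subtype.ext h1
      rw [this, map_zero]
    rw [tabS_eq D hgh f f hk (Or.inl rfl)] at h2
    exact tabS_ne D hgh f h2
  rw [← Finset.sum_subset (s₁ := {D.g, D.h}) ?_ ?_]
  · rw [Finset.sum_pair hgh, hdd, tabS_eq D hgh f (fun _ => 0) (Or.inl rfl) (Or.inl rfl),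
      tabS_eq D hgh f (fun _ => 0) (k := D.h) (Or.inr rfl) (Or.inl rfl)]
  · intro k hk
    simp only [Finset.mem_insert, Finset.mem_singleton] at hk
    exact hgK k hk
  · intro k _ hk
    simp only [Finset.mem_insert, Finset.mem_singleton, not_or] at hk
    rw [tabS_other D f hk.1 hk.2, map_zero]

end Pool.Agent.Y792.RT
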