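import Mathlib

set_option autoImplicit false

/-! Semigroup rings of arbitrary rings (with or without identity), and the extension of ring
topologies for residually finite monoids. -/

namespace Pool.Agent.Y792.RT

open Topology

universe u v

/-- The product of two elements of the semigroup ring `RG`, whose elements are the finitely
supported functions `G →₀ R`: the sum of all `(a g) (b h) · (g h)`. -/
noncomputable def conv {R : Type v} {G : Type u} [NonUnitalRing R] [Monoid G]
    (a b : G →₀ R) : G →₀ R :=
  a.sum fun g r => b.sum fun h s => Finsupp.single (g * h) (r * s)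

/-- The topology on `RG` is a Hausdorff ring topology which induces the given topology `τ₀`
on `R`, identified with `R · 1`. -/
structure IsExtension (R : Type v) (G : Type u) [NonUnitalRing R] [Monoid G]
    (τ₀ : TopologicalSpace R) [τ : TopologicalSpace (G →₀ R)] : Prop where
  t2 : T2Space (G →₀ R)
  add : Continuous fun p : (G →₀ R) × (G →₀ R) => p.1 + p.2
  neg : Continuous fun a : G →₀ R => -a
  mul : Continuous fun p : (G →₀ R) × (G →₀ R) => conv p.1 p.2
  ind : TopologicalSpace.induced (fun r : R => Finsupp.single (1 : G) r) τ = τ₀

/-- Residually finite monoids: two different elements have different images under some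
homomorphism to a finite monoid. -/
def ResFin (G : Type u) [Monoid G] : Prop :=
  ∀ g h : G, g ≠ h → ∃ (F : Type) (_ : Monoid F) (_ : Finite F) (π : G →* F), π g ≠ π h

section conv

variable {R : Type v} {G : Type u} [NonUnitalRing R] [Monoid G]

theorem conv_add_right (a b b' : G →₀ R) : conv a (b + b') = conv a b + conv a b' := by
  classical
  unfold conv
  rw [← Finsupp.sum_add]
  congr 1
  funext g r
  apply Finsupp.sum_add_index'
  · intro h; simp
  · intro h s s'; rw [mul_add, Finsupp.single_add]

theorem conv_add_left (a a' b : G →₀ R) : conv (a + a') b = conv a b + conv a' b := by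
  classical
  unfold conv
  apply Finsupp.sum_add_index'
  · intro g; simp
  · intro g r r'
    rw [← Finsupp.sum_add]
    congr 1
    funext h s
    rw [add_mul, Finsupp.single_add]

theorem conv_single (g h : G) (r s : R) :
    conv (Finsupp.single g r) (Finsupp.single h s) = Finsupp.single (g * h) (r * s) := by
  unfold conv
  rw [Finsupp.sum_single_index (by simp), Finsupp.sum_single_index (by simp)]

theorem conv_zero_left (b : G →₀ R) : conv 0 b = 0 := by simp [conv]

theorem conv_zero_right (a : G →₀ R) : conv a 0 = 0 := by simp [conv]

/-- The product as a biadditive map. -/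
noncomputable def convHom : (G →₀ R) →+ (G →₀ R) →+ (G →₀ R) where
  toFun a :=
    { toFun := fun b => conv a b
      map_zero' := conv_zero_right a
      map_add' := conv_add_right a }
  map_zero' := AddMonoidHom.ext fun b => conv_zero_left b
  map_add' a a' := AddMonoidHom.ext fun b => conv_add_left a a' b

end conv

/-- A homomorphism to a finite monoid. -/
structure FQ (G : Type u) [Monoid G] : Type (max u 1) where
  F : Type
  mon : Monoid F
  fin : Finite F
  π : G →* F

attribute [instance] FQ.mon FQ.fin

section coord

variable {R : Type v} {G : Type u} [NonUnitalRing R] [Monoid G]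

open Classical in
/-- The coordinate of the image in the semigroup ring of a finite quotient. -/
noncomputable def coord (j : FQ G) (x : j.F) : (G →₀ R) →+ R :=
  Finsupp.liftAddHom (fun g => if j.π g = x then AddMonoidHom.id R else 0)

theorem coord_single (j : FQ G) (x : j.F) (g : G) (r : R) [Decidable (j.π g = x)] :
    coord j x (Finsupp.single g r) = if j.π g = x then r else 0 := by
  unfold coord
  rw [Finsupp.liftAddHom_apply_single]
  split_ifs <;> simp

theorem coord_conv (j : FQ G) (x : j.F) [Fintype j.F] [DecidableEq j.F] (a b : G →₀ R) :
    coord j x (conv a b) =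
      ∑ y : j.F, ∑ z : j.F, if y * z = x then coord j y a * coord j z b else 0 := by
  induction a using Finsupp.induction_linear with
  | zero => simp [conv_zero_left]
  | add a a' h h' =>
    rw [conv_add_left, map_add, h, h', ← Finset.sum_add_distrib]
    refine Finset.sum_congr rfl fun y _ => ?_
    rw [← Finset.sum_add_distrib]
    refine Finset.sum_congr rfl fun z _ => ?_
    split_ifs
    · rw [map_add, add_mul]
    · rw [add_zero]
  | single g r =>
    induction b using Finsupp.induction_linear with
    | zero => simp [conv_zero_right]
    | add b b' h h' =>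
      rw [conv_add_right, map_add, h, h', ← Finset.sum_add_distrib]
      refine Finset.sum_congr rfl fun y _ => ?_
      rw [← Finset.sum_add_distrib]
      refine Finset.sum_congr rfl fun z _ => ?_
      split_ifs
      · rw [map_add, mul_add]
      · rw [add_zero]
    | single h s =>
      rw [conv_single, coord_single, map_mul]
      rw [Finset.sum_eq_single (j.π g), Finset.sum_eq_single (j.π h)]
      · simp only [coord_single, if_true]
      · intro z _ hz
        rw [coord_single j z h s, if_neg (Ne.symm hz)]
        simp
      · intro hcon; exact absurd (Finset.mem_univ _) hcon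
      · intro y _ hy
        apply Finset.sum_eq_zero
        intro z _
        rw [coord_single, if_neg (Ne.symm hy)]
        simp
      · intro hcon; exact absurd (Finset.mem_univ _) hcon

theorem exists_inj (hG : ResFin G) (P : Finset (G × G)) (hP : ∀ p ∈ P, p.1 ≠ p.2) :
    ∃ j : FQ G, ∀ p ∈ P, j.π p.1 ≠ j.π p.2 := by
  classical
  induction P using Finset.induction_on with
  | empty => exact ⟨⟨PUnit, inferInstance, inferInstance, 1⟩, by simp⟩
  | insert p P _ ih =>
    obtain ⟨j, hj⟩ := ih (fun q hq => hP q (Finset.mem_insert_of_mem hq))
    obtain ⟨F, hF1, hF2, π, hπ⟩ := hG p.1 p.2 (hP p (Finset.mem_insert_self _ _))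
    refine ⟨⟨F × j.F, inferInstance, inferInstance, π.prod j.π⟩, ?_⟩
    intro q hq heq
    have h1 : (π q.1, j.π q.1) = (π q.2, j.π q.2) := heq
    rw [Prod.mk.injEq] at h1
    rcases Finset.mem_insert.mp hq with rfl | hq
    · exact hπ h1.1
    · exact hj q hq h1.2

theorem coord_injective (hG : ResFin G) (a : G →₀ R)
    (ha : ∀ (j : FQ G) (x : j.F), coord j x a = 0) : a = 0 := by
  classical
  by_contra hne
  obtain ⟨g, hg⟩ := Finsupp.ne_iff.mp hne
  obtain ⟨j, hj⟩ := exists_inj hG ((a.support ×ˢ a.support).filter (fun p => p.1 ≠ p.2))
    (fun p hp => (Finset.mem_filter.mp hp).2)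
  have h1 := ha j (j.π g)
  have h2 : coord j (j.π g) a = a g := by
    unfold coord
    rw [Finsupp.liftAddHom_apply]
    unfold Finsupp.sum
    rw [Finset.sum_eq_single g]
    · simp
    · intro h hh hne'
      have h3 : j.π h ≠ j.π g := by
        refine hj (h, g) (Finset.mem_filter.mpr ⟨Finset.mem_product.mpr ⟨hh, ?_⟩, hne'⟩)
        simpa using hg
      simp [h3]
    · intro hh
      simp only [Finsupp.mem_support_iff, not_not] at hh
      rw [hh]
      exact map_zero (if j.π g = j.π g then AddMonoidHom.id R else 0 : R →+ R)
  rw [h2] at h1
  exact hg h1

/-- **Ring topologies extend to the semigroup rings of residually finite monoids.** -/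
theorem extends_of_resFin (hG : ResFin G) [τ₀ : TopologicalSpace R] [T2Space R]
    [IsTopologicalRing R] : ∃ τ : TopologicalSpace (G →₀ R), @IsExtension R G _ _ τ₀ τ := by
  classical
  let τ : TopologicalSpace (G →₀ R) :=
    ⨅ q : (j : FQ G) × j.F, TopologicalSpace.induced (fun a => coord (R := R) q.1 q.2 a) τ₀
  have hc : ∀ (j : FQ G) (x : j.F), @Continuous _ _ τ τ₀ (fun a => coord (R := R) j x a) := by
    intro j x
    exact continuous_iInf_dom (i := (⟨j, x⟩ : (j : FQ G) × j.F)) continuous_induced_dom
  have hto : ∀ {X : Type (max u v)} [TopologicalSpace X] (F : X → (G →₀ R)),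
      (∀ (j : FQ G) (x : j.F), Continuous fun t => coord (R := R) j x (F t)) →
      @Continuous _ _ _ τ F := by
    intro X _ F hF
    rw [continuous_iInf_rng]
    rintro ⟨j, x⟩
    rw [continuous_induced_rng]
    exact hF j x
  let _ := τ
  refine ⟨τ, ⟨?_, ?_, ?_, ?_, ?_⟩⟩
  · have hinj : Function.Injective (fun (a : G →₀ R) (q : (j : FQ G) × j.F) =>
        coord (R := R) q.1 q.2 a) := by
      intro a b hab
      rw [← sub_eq_zero]
      apply coord_injective hG
      intro j x
      have := congrFun hab ⟨j, x⟩
      rw [map_sub, sub_eq_zero]
      exact this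
    exact T2Space.of_injective_continuous hinj (continuous_pi fun q => hc q.1 q.2)
  · apply hto
    intro j x
    simp only [map_add]
    exact ((hc j x).comp continuous_fst).add ((hc j x).comp continuous_snd)
  · apply hto
    intro j x
    simp only [map_neg]
    exact (hc j x).neg
  · apply hto
    intro j x
    have : Fintype j.F := Fintype.ofFinite _
    simp only [coord_conv]
    refine continuous_finsetSum _ fun y _ => continuous_finsetSum _ fun z _ => ?_
    split_ifs
    · exact ((hc j y).comp continuous_fst).mul ((hc j z).comp continuous_snd)
    · exact continuous_const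
  · rw [induced_iInf]
    apply le_antisymm
    · refine (iInf_le _ (⟨⟨PUnit, inferInstance, inferInstance, 1⟩, 1⟩ :
        (j : FQ G) × j.F)).trans ?_
      rw [induced_compose]
      have h1 : (fun a => coord (R := R) (⟨PUnit, inferInstance, inferInstance, 1⟩ : FQ G) 1 a) ∘
          (fun r : R => Finsupp.single (1 : G) r) = id := by
        funext r
        simp only [Function.comp_apply, coord_single]
        simp
      rw [h1, induced_id]
    · refine le_iInf ?_
      rintro ⟨j, x⟩
      rw [induced_compose, ← continuous_iff_le_induced]
      have h1 : (fun a => coord (R := R) j x a) ∘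
          (fun r : R => Finsupp.single (1 : G) r) = fun r => if j.π 1 = x then r else 0 := by
        funext r
        simp only [Function.comp_apply, coord_single]
      rw [h1]
      split_ifs
      · exact continuous_id
      · exact continuous_const

end coord

end Pool.Agent.Y792.RT
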