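import Pool.Agent.Y792.RT.Key
import Pool.Agent.Y792.RT.Fin
import Pool.Agent.Y792.RT.Pos

set_option autoImplicit false

/-! Monoids which are not residually finite: a ring topology which does not extend. -/

namespace Pool.Agent.Y792.RT

open Topology

universe u v

/-- The marked elements cannot be separated in a topology on the semigroup ring in the form
`G →₀ R`. -/
theorem no_ext {G : Type u} [Monoid G] {N : ℕ → ℕ} (D : Dat G N) (hgh : D.g ≠ D.h) (e : ℕ → G)
    (he : ∀ i j, D.T i j = e i * e j) :
    ¬ ∃ τ : TopologicalSpace (G →₀ S D), @IsExtension (S D) G _ _ (topS D) τ := by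
  classical
  rintro ⟨τ, hT2, hadd, hneg, hmul, hind⟩
  have : ContinuousAdd (G →₀ S D) := ⟨hadd⟩
  have : ContinuousNeg (G →₀ S D) := ⟨hneg⟩
  have : IsTopologicalAddGroup (G →₀ S D) := { }
  have h := key D hgh e he (A := G →₀ S D) convHom hmul
    (fun g => Finsupp.singleAddHom g) (fun a b r t => conv_single a b r t)
    (by
      rw [← hind]
      exact continuous_induced_dom)
  have h2 := DFunLike.congr_fun h D.g
  simp only [Finsupp.singleAddHom_apply, Finsupp.add_apply, Finsupp.single_eq_same,
    Finsupp.zero_apply] at h2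
  rw [Finsupp.single_eq_of_ne hgh, add_zero] at h2
  exact tabS_ne D hgh _ h2

/-- The same for `MonoidAlgebra`. -/
theorem no_ext' {G : Type u} [Monoid G] {N : ℕ → ℕ} (D : Dat G N) (hgh : D.g ≠ D.h) (e : ℕ → G)
    (he : ∀ i j, D.T i j = e i * e j) :
    ¬ ∃ τ : TopologicalSpace (MonoidAlgebra (S D) G),
      @T2Space (MonoidAlgebra (S D) G) τ ∧ @IsTopologicalRing (MonoidAlgebra (S D) G) τ _ ∧
      TopologicalSpace.induced (fun r : S D => MonoidAlgebra.single (1 : G) r) τ = topS D := by
  classical
  rintro ⟨τ, hT2, hring, hind⟩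
  have h := key D hgh e he (A := MonoidAlgebra (S D) G) AddMonoidHom.mul
    (by
      change Continuous fun p : MonoidAlgebra (S D) G × MonoidAlgebra (S D) G => p.1 * p.2
      exact continuous_mul)
    (fun m => MonoidAlgebra.singleAddHom m)
    (fun a b r t => by
      change MonoidAlgebra.single a r * MonoidAlgebra.single b t = MonoidAlgebra.single (a * b) (r * t)
      rw [MonoidAlgebra.single_mul_single])
    (by
      have h1 : @Continuous _ _ (TopologicalSpace.induced
          (fun r : S D => MonoidAlgebra.single (1 : G) r) τ) τ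
          (fun r : S D => MonoidAlgebra.single (1 : G) r) := continuous_induced_dom
      rw [hind] at h1
      exact h1)
  have h2 := congrArg (fun a : MonoidAlgebra (S D) G => a.coeff D.g) h
  simp [hgh] at h2
  exact tabS_ne D hgh _ h2

/-- For a monoid which is not residually finite. -/
theorem not_resFin {G : Type u} [Monoid G] (hG : ¬ ResFin G) :
    ∃ (R : Type) (_ : Ring R) (τ₀ : TopologicalSpace R) (_ : T2Space R) (_ : IsTopologicalRing R),
      (¬ ∃ τ : TopologicalSpace (G →₀ R), @IsExtension R G _ _ τ₀ τ) ∧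
      ¬ ∃ τ : TopologicalSpace (MonoidAlgebra R G),
        @T2Space (MonoidAlgebra R G) τ ∧ @IsTopologicalRing (MonoidAlgebra R G) τ _ ∧
        TopologicalSpace.induced (fun r : R => MonoidAlgebra.single (1 : G) r) τ = τ₀ := by
  unfold ResFin at hG
  push Not at hG
  obtain ⟨g, h, hgh, hns⟩ := hG
  have hns' : NotSep g h := fun F _ _ π => hns F inferInstance inferInstance π
  obtain ⟨N, e, D, hg, hh, he⟩ := exists_dat hns'
  have hne : D.g ≠ D.h := by rw [hg, hh]; exact hgh
  exact ⟨S D, inferInstance, topS D, inferInstance, inferInstance, no_ext D hne e he,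
    no_ext' D hne e he⟩

/-- The additive group of the rational numbers is not residually finite. -/
theorem rat_not_resFin : ¬ ResFin (Multiplicative ℚ) := by
  intro hG
  obtain ⟨F, hF1, hF2, π, hπ⟩ := hG (Multiplicative.ofAdd (1 : ℚ)) 1 (by
    intro h
    have : (1 : ℚ) = 0 := Multiplicative.ofAdd.injective h
    exact one_ne_zero this)
  apply hπ
  rw [π.map_one]
  have hfin : Finite Fˣ := inferInstance
  set n := Nat.card Fˣ with hn
  have hn0 : (n : ℚ) ≠ 0 := by
    have : 0 < n := Nat.card_pos
    exact_mod_cast this.ne'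
  have h1 : Multiplicative.ofAdd (1 : ℚ) = (Multiplicative.ofAdd (1 / n : ℚ)) ^ n := by
    rw [← ofAdd_nsmul, nsmul_eq_mul, mul_one_div_cancel hn0]
  have h2 : (π.toHomUnits (Multiplicative.ofAdd (1 / n : ℚ))) ^ n = 1 := pow_card_eq_one'
  have h3 := congrArg Units.val h2
  rw [h1, map_pow]
  simpa using h3

end Pool.Agent.Y792.RT
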