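import Pool.Agent.Y792.RT.Big

set_option autoImplicit false

/-! The topological ring attached to a table of products `T i j` in a set `G` and to two elements
`g`, `h` of `G` (adapted from the starting file NoExtension of MP_311bfa_al). -/

namespace Pool.Agent.Y792.RT

open Topology

universe u

/-- A table of products with two marked elements `g`, `h` such that the table of every function
which separates `g` and `h` has large rank. -/
structure Dat (G : Type u) (N : ℕ → ℕ) where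
  T : ℕ → ℕ → G
  g : G
  h : G
  sep : ∀ (r : ℕ) (φ : G → ZMod 2), φ g ≠ φ h →
    2 ^ r ≤ (Matrix.of fun i j : Fin (N r) => φ (T i j)).rank

variable {G : Type u} {N : ℕ → ℕ}

theorem zmod2_cases (c : ZMod 2) : c = 0 ∨ c = 1 := by
  revert c; decide

theorem zmod2_add_ne {a b : ZMod 2} : a + b ≠ 0 ↔ a ≠ b := by
  revert a b; decide

/-- The elements with only matrix parts. -/
def mt : ((f : Idx) → Matrix (Fin (N (f 0))) (Fin (N (f 0))) (ZMod 2)) →+ Big N where
  toFun m := ⟨0, 0, 0, 0, 0, 0, m⟩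
  map_zero' := rfl
  map_add' m m' := by ext <;> simp

/-- The sums of tables. -/
def El (D : Dat G N) (α : Idx →₀ (G → ZMod 2)) : Big N :=
  mt (fun f => Matrix.of fun i j => α f (D.T i j))

theorem El_zero (D : Dat G N) : El D 0 = 0 := by
  unfold El
  convert (mt (N := N)).map_zero using 2
  rfl

theorem El_add (D : Dat G N) (α β : Idx →₀ (G → ZMod 2)) :
    El D (α + β) = El D α + El D β := by
  unfold El
  rw [← map_add]
  rfl

theorem big_add_self (a : Big N) : a + a = 0 := by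
  ext <;> simp [CharTwo.add_self_eq_zero]

theorem big_neg (a : Big N) : -a = a := by
  ext <;> simp

/-- The functional which is zero on relations. -/
noncomputable def lam (D : Dat G N) (α : Idx →₀ (G → ZMod 2)) : ZMod 2 :=
  α.sum (fun _ φ => φ D.g + φ D.h)

theorem lam_zero (D : Dat G N) : lam D 0 = 0 := by simp [lam]

theorem lam_add (D : Dat G N) (α β : Idx →₀ (G → ZMod 2)) :
    lam D (α + β) = lam D α + lam D β := by
  classical
  unfold lam
  apply Finsupp.sum_add_index'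
  · intro _; simp
  · intro _ φ ψ
    simp only [Pi.add_apply]
    ring

theorem lam_single (D : Dat G N) (f : Idx) (φ : G → ZMod 2) :
    lam D (Finsupp.single f φ) = φ D.g + φ D.h := by
  unfold lam
  rw [Finsupp.sum_single_index]
  simp

/-- The basic relations. -/
def InI0 (D : Dat G N) (a : Big N) : Prop := ∃ α, a = El D α ∧ lam D α = 0

theorem InI0_zero (D : Dat G N) : InI0 D 0 := ⟨0, (El_zero D).symm, lam_zero D⟩

theorem InI0_add (D : Dat G N) {a b : Big N} (ha : InI0 D a) (hb : InI0 D b) :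
    InI0 D (a + b) := by
  obtain ⟨α, rfl, h1⟩ := ha
  obtain ⟨β, rfl, h2⟩ := hb
  exact ⟨α + β, (El_add D α β).symm, by rw [lam_add, h1, h2, add_zero]⟩

theorem mul_El (D : Dat G N) (x : Big N) (α : Idx →₀ (G → ZMod 2)) :
    x * El D α = 0 ∨ x * El D α = El D α := by
  rcases zmod2_cases x.l with h | h
  · left
    ext <;> simp [El, mt, h]
  · right
    ext <;> simp [El, mt, h]

theorem El_mul (D : Dat G N) (x : Big N) (α : Idx →₀ (G → ZMod 2)) :
    El D α * x = 0 ∨ El D α * x = El D α := by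
  rcases zmod2_cases x.l with h | h
  · left
    ext <;> simp [El, mt, h]
  · right
    ext <;> simp [El, mt, h]

theorem InI0_mul_left (D : Dat G N) (x : Big N) {a : Big N} (ha : InI0 D a) :
    InI0 D (x * a) := by
  obtain ⟨α, rfl, h1⟩ := ha
  rcases mul_El D x α with h | h
  · rw [h]; exact InI0_zero D
  · rw [h]; exact ⟨α, rfl, h1⟩

theorem InI0_mul_right (D : Dat G N) (x : Big N) {a : Big N} (ha : InI0 D a) :
    InI0 D (a * x) := by
  obtain ⟨α, rfl, h1⟩ := ha
  rcases El_mul D x α with h | h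
  · rw [h]; exact InI0_zero D
  · rw [h]; exact ⟨α, rfl, h1⟩

/-- The closure of the relations. -/
def InI (D : Dat G N) (a : Big N) : Prop := ∀ m, ∃ b ∈ U N m, InI0 D (a + b)

theorem InI_of_InI0 (D : Dat G N) {a : Big N} (ha : InI0 D a) : InI D a :=
  fun m => ⟨0, zero_mem_U m, by rwa [add_zero]⟩

theorem InI_add (D : Dat G N) {a b : Big N} (ha : InI D a) (hb : InI D b) : InI D (a + b) := by
  intro m
  obtain ⟨a', ha', h1⟩ := ha (m + 1)
  obtain ⟨b', hb', h2⟩ := hb (m + 1)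
  refine ⟨a' + b', U_add ha' hb', ?_⟩
  have := InI0_add D h1 h2
  have e : a + a' + (b + b') = a + b + (a' + b') := by abel
  rwa [e] at this

theorem InI_mul_left (D : Dat G N) (x : Big N) (hx : x ∈ Fs N) {a : Big N} (ha : InI D a) :
    InI D (x * a) := by
  intro m
  obtain ⟨n, hn⟩ := U_mul_left x hx m
  obtain ⟨b, hb, h1⟩ := ha n
  refine ⟨x * b, hn b hb, ?_⟩
  rw [← mul_add]
  exact InI0_mul_left D x h1

theorem InI_mul_right (D : Dat G N) (x : Big N) (hx : x ∈ Fs N) {a : Big N} (ha : InI D a) :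
    InI D (a * x) := by
  intro m
  obtain ⟨n, hn⟩ := U_mul_right x hx m
  obtain ⟨b, hb, h1⟩ := ha n
  refine ⟨b * x, hn b hb, ?_⟩
  rw [← add_mul]
  exact InI0_mul_right D x h1

/-- The key estimate: a sum of tables in the closure of the relations is a relation. -/
theorem lam_of_InI (D : Dat G N) {α : Idx →₀ (G → ZMod 2)} (h : InI D (El D α)) :
    lam D α = 0 := by
  classical
  obtain ⟨b, hb, β, hβ, hlam⟩ := h 1
  have hb' : b = El D (α + β) := by
    rw [El_add, ← hβ, ← add_assoc, big_add_self, zero_add]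
  have hz : lam D (α + β) = 0 := by
    unfold lam
    apply Finset.sum_eq_zero
    intro f _
    by_contra hne
    have h1 := D.sep (f 0) ((α + β) f) (zmod2_add_ne.mp hne)
    have h2 := hb.2.2.2 f
    rw [hb'] at h2
    have h3 : ((El D (α + β)).M f) = Matrix.of fun i j : Fin (N (f 0)) => (α + β) f (D.T i j) :=
      rfl
    rw [h3] at h2
    have h4 : 0 < 2 ^ f 0 := Nat.two_pow_pos _
    have h5 : sz f = 2 ^ f 0 := rfl
    omega
  rw [lam_add, hlam, add_zero] at hz
  exact hz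

/-- The ideal of identified elements. -/
def I (D : Dat G N) : Ideal (Fs N) where
  carrier := {a | InI D a.1}
  zero_mem' := InI_of_InI0 D (InI0_zero D)
  add_mem' := fun ha hb => InI_add D ha hb
  smul_mem' := fun x _ ha => InI_mul_left D x.1 x.2 ha

instance (D : Dat G N) : (I D).IsTwoSided := ⟨fun {_} b ha => InI_mul_right D b.1 b.2 ha⟩

theorem mem_I (D : Dat G N) (a : Fs N) : a ∈ I D ↔ InI D a.1 := Iff.rfl

/-- The topological ring. -/
abbrev S (D : Dat G N) : Type := Fs N ⧸ I D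

/-- The basic neighbourhoods of zero in `S`. -/
def US (D : Dat G N) (m : ℕ) : Set (S D) := (Ideal.Quotient.mk (I D)) '' {a : Fs N | a.1 ∈ U N m}

theorem US_anti (D : Dat G N) {m n : ℕ} (h : m ≤ n) : US D n ⊆ US D m := by
  rintro _ ⟨a, ha, rfl⟩
  exact ⟨a, U_anti h ha, rfl⟩

/-- The ring filter basis on `S`. -/
@[instance_reducible]
def basis (D : Dat G N) : RingFilterBasis (S D) where
  sets := Set.range (US D)
  nonempty := ⟨US D 0, 0, rfl⟩
  inter_sets := by
    rintro _ _ ⟨m, rfl⟩ ⟨n, rfl⟩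
    exact ⟨US D (max m n), ⟨_, rfl⟩, fun x hx =>
      ⟨US_anti D (le_max_left _ _) hx, US_anti D (le_max_right _ _) hx⟩⟩
  zero' := by
    rintro _ ⟨m, rfl⟩
    exact ⟨0, zero_mem_U m, map_zero _⟩
  add' := by
    rintro _ ⟨m, rfl⟩
    refine ⟨US D (m + 1), ⟨_, rfl⟩, ?_⟩
    rintro _ ⟨_, ⟨a, ha, rfl⟩, _, ⟨b, hb, rfl⟩, rfl⟩
    exact ⟨a + b, U_add ha hb, map_add _ _ _⟩
  neg' := by
    rintro _ ⟨m, rfl⟩
    refine ⟨US D m, ⟨_, rfl⟩, ?_⟩
    rintro _ ⟨a, ha, rfl⟩
    exact ⟨-a, U_neg ha, map_neg _ _⟩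
  conj' := by
    rintro x _ ⟨m, rfl⟩
    refine ⟨US D m, ⟨_, rfl⟩, ?_⟩
    intro y hy
    simpa using hy
  mul' := by
    rintro _ ⟨m, rfl⟩
    refine ⟨US D (m + 1), ⟨_, rfl⟩, ?_⟩
    rintro _ ⟨_, ⟨a, ha, rfl⟩, _, ⟨b, hb, rfl⟩, rfl⟩
    exact ⟨a * b, U_mul ha hb, map_mul _ _ _⟩
  mul_left' := by
    rintro x _ ⟨m, rfl⟩
    obtain ⟨x, rfl⟩ := Ideal.Quotient.mk_surjective x
    obtain ⟨n, hn⟩ := U_mul_left x.1 x.2 m
    refine ⟨US D n, ⟨_, rfl⟩, ?_⟩
    rintro _ ⟨a, ha, rfl⟩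
    exact ⟨x * a, hn a.1 ha, map_mul _ _ _⟩
  mul_right' := by
    rintro x _ ⟨m, rfl⟩
    obtain ⟨x, rfl⟩ := Ideal.Quotient.mk_surjective x
    obtain ⟨n, hn⟩ := U_mul_right x.1 x.2 m
    refine ⟨US D n, ⟨_, rfl⟩, ?_⟩
    rintro _ ⟨a, ha, rfl⟩
    exact ⟨a * x, hn a.1 ha, map_mul _ _ _⟩

theorem sep (D : Dat G N) {x : S D} (hx : ∀ m, x ∈ US D m) : x = 0 := by
  obtain ⟨a, rfl⟩ := Ideal.Quotient.mk_surjective x
  rw [Ideal.Quotient.eq_zero_iff_mem, mem_I]
  intro m
  obtain ⟨b, hb, hba⟩ := hx (m + 1)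
  have h1 : a - b ∈ I D := by
    rw [← Ideal.Quotient.eq, hba]
  obtain ⟨b', hb', h2⟩ := (mem_I D _).mp h1 (m + 1)
  refine ⟨-b.1 + b', U_add (U_neg hb) hb', ?_⟩
  have e : (a - b).1 + b' = a.1 + (-b.1 + b') := by
    push_cast
    abel
  rwa [e] at h2

instance topS (D : Dat G N) : TopologicalSpace (S D) := (basis D).topology

instance (D : Dat G N) : IsTopologicalRing (S D) := (basis D).isTopologicalRing

theorem nhds_zero (D : Dat G N) {V : Set (S D)} (hV : V ∈ 𝓝 (0 : S D)) : ∃ m, US D m ⊆ V := by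
  have h := (basis D).toAddGroupFilterBasis.nhds_zero_hasBasis.mem_iff.mp hV
  obtain ⟨_, ⟨m, rfl⟩, h⟩ := h
  exact ⟨m, h⟩

instance (D : Dat G N) : T2Space (S D) := by
  rw [(basis D).toAddGroupFilterBasis.t2Space_iff_sInter_subset rfl]
  intro x hx
  rw [Set.mem_singleton_iff]
  apply sep
  intro m
  exact hx (US D m) ⟨m, rfl⟩

open Classical in
/-- The elements `x_i`. -/
noncomputable def X (N : ℕ → ℕ) (f : Idx) (i : ℕ) : Big N where
  l := 0
  s := 0
  u := fun f' i' => if f' = f ∧ i'.val = i then 1 else 0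
  v := 0
  p := 0
  q := 0
  M := 0

open Classical in
/-- The elements `z_i`. -/
noncomputable def Z (N : ℕ → ℕ) (f : Idx) (i : ℕ) : Big N where
  l := 0
  s := 0
  u := 0
  v := fun f' i' => if f' = f ∧ i'.val = i then 1 else 0
  p := 0
  q := 0
  M := 0

open Classical in
/-- The element `y`. -/
noncomputable def Y (N : ℕ → ℕ) (f : Idx) : Big N where
  l := 0
  s := fun f' => if f' = f then 1 else 0
  u := 0
  v := 0
  p := 0
  q := 0
  M := 0

theorem X_mem (f : Idx) (i : ℕ) : X N f i ∈ Fs N := by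
  refine ⟨?_, ?_, ?_⟩ <;> simp [X]

theorem Z_mem (f : Idx) (i : ℕ) : Z N f i ∈ Fs N := by
  refine ⟨?_, ?_, ?_⟩ <;> simp [Z]

theorem Y_mem (f : Idx) : Y N f ∈ Fs N := by
  refine ⟨?_, ?_, ?_⟩
  · apply (Set.finite_singleton f).subset
    intro f' hf'
    by_contra h
    apply hf'
    simp only [Set.mem_singleton_iff] at h
    simp [Y, h]
  · simp [Y]
  · simp [Y]

theorem mt_mem (m : (f : Idx) → Matrix (Fin (N (f 0))) (Fin (N (f 0))) (ZMod 2)) :
    mt m ∈ Fs N := by
  refine ⟨?_, ?_, ?_⟩ <;> simp [mt]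

theorem X_U (f : Idx) (i : ℕ) : X N f i ∈ U N (f (i + 1)) := by
  refine ⟨rfl, fun f' _ => ⟨rfl, rfl, rfl⟩, fun f' i' h => ⟨?_, rfl⟩, fun f' => ?_⟩
  · simp only [X, ite_eq_right_iff, one_ne_zero, imp_false, not_and]
    rintro rfl rfl
    omega
  · simp [X, Matrix.rank_zero]

theorem Z_U (f : Idx) (i : ℕ) : Z N f i ∈ U N (f (i + 1)) := by
  refine ⟨rfl, fun f' _ => ⟨rfl, rfl, rfl⟩, fun f' i' h => ⟨rfl, ?_⟩, fun f' => ?_⟩
  · simp only [Z, ite_eq_right_iff, one_ne_zero, imp_false, not_and]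
    rintro rfl rfl
    omega
  · simp [Z, Matrix.rank_zero]

theorem Y_U (f : Idx) : Y N f ∈ U N (f 0) := by
  refine ⟨rfl, fun f' h => ⟨?_, rfl, rfl⟩, fun f' i' h => ⟨rfl, rfl⟩, fun f' => ?_⟩
  · simp only [Y, ite_eq_right_iff, one_ne_zero, imp_false]
    rintro rfl
    omega
  · simp [Y, Matrix.rank_zero]

open Classical in
/-- The matrix units. -/
noncomputable def unit' (f : Idx) (i j : ℕ) :
    (f : Idx) → Matrix (Fin (N (f 0))) (Fin (N (f 0))) (ZMod 2) :=
  fun f' i' j' => if f' = f ∧ i'.val = i ∧ j'.val = j then 1 else 0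

theorem XYZ (f : Idx) (i j : ℕ) : X N f i * Y N f * Z N f j = mt (unit' f i j) := by
  classical
  apply Big.ext
  · simp [mt, X, Y, Z]
  · funext f'
    simp [mt, X, Y, Z]
  · funext f' i'
    simp [mt, X, Y, Z]
  · funext f' i'
    simp [mt, X, Y, Z]
  · funext f' i'
    simp [mt, X, Y, Z]
  · funext f' i'
    simp [mt, X, Y, Z]
  · funext f'
    ext i' j'
    change (X N f i * Y N f * Z N f j).M f' i' j' =
      (if f' = f ∧ i'.val = i ∧ j'.val = j then (1 : ZMod 2) else 0)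
    rw [Big.mul_M, Big.mul_p]
    simp only [X, Y, Z]
    by_cases h1 : f' = f <;> by_cases h2 : i'.val = i <;> by_cases h3 : j'.val = j <;>
      simp [h1, h2, h3]

end Pool.Agent.Y792.RT
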